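import Mathlib
import Pool.Agent.Q293.GWCond

/-!
# Random conductance walks on Galton–Watson trees: the covariance can be negative
-/

set_option autoImplicit false

open MeasureTheory ProbabilityTheory Finset ENNReal
open Q293.GWCond

namespace Pool.Agent.Results.MP_8be476_pr.NegativeCovariance

/-- an augmented tree: the index of the root and the subtrees rooted at its neighbours
(the neighbours are numbered by `i < ω.1 + 1`, and `w_0` has number `0`) -/
abbrev Aug := ℕ × (ℕ → Tree)

/-- law of the augmented Galton–Watson tree -/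
noncomputable def AGW (ν : Measure ℕ) : Measure Aug :=
  ν.prod (Measure.infinitePi fun _ : ℕ => GW ν)

instance (ν : Measure ℕ) [IsProbabilityMeasure ν] : IsProbabilityMeasure (AGW ν) := by
  unfold AGW; infer_instance

/-- conductance of the edge from the root to `w_0` -/
def xi0 (a : ℕ → ℕ → ℝ) (ω : Aug) : ℝ := a ω.1 (ω.2 0 [])

/-- effective conductance to infinity through the `i`-th neighbour of the root -/
noncomputable def branch (a : ℕ → ℕ → ℝ) (ω : Aug) (i : ℕ) : ℝ≥0∞ :=
  ((ENNReal.ofReal (a ω.1 (ω.2 i [])))⁻¹ + (cond a (ω.2 i))⁻¹)⁻¹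

/-- effective conductance of the augmented tree -/
noncomputable def total (a : ℕ → ℕ → ℝ) (ω : Aug) : ℝ≥0∞ := ∑ i ∈ range (ω.1 + 1), branch a ω i

/-- the ratio `C(T_0^*) / C(T)` -/
noncomputable def ratio (a : ℕ → ℕ → ℝ) (ω : Aug) : ℝ := (branch a ω 0 / total a ω).toReal

/-- the law giving mass `p` to `K` and mass `1 - p` to `1` -/
noncomputable def law (K : ℕ) (p : ℝ) : Measure ℕ :=
  ENNReal.ofReal (1 - p) • Measure.dirac 1 + ENNReal.ofReal p • Measure.dirac K

/-- conductance `M` between two vertices of index `K`, conductance `1` otherwise -/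
def cnd (K : ℕ) (M : ℝ) (k m : ℕ) : ℝ := if k = K ∧ m = K then M else 1

lemma law_prob (K : ℕ) {p : ℝ} (h0 : 0 ≤ p) (h1 : p ≤ 1) : IsProbabilityMeasure (law K p) := by
  constructor
  unfold law
  simp only [Measure.coe_add, Measure.coe_smul, Pi.add_apply, Pi.smul_apply, measure_univ,
    smul_eq_mul, mul_one]
  rw [← ENNReal.ofReal_add (by linarith) h0]
  simp

lemma lintegral_law (K : ℕ) (p : ℝ) (f : ℕ → ℝ≥0∞) :
    ∫⁻ k, f k ∂(law K p) = ENNReal.ofReal (1 - p) * f 1 + ENNReal.ofReal p * f K := by
  unfold law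
  rw [lintegral_add_measure, lintegral_smul_measure, lintegral_smul_measure, lintegral_dirac,
    lintegral_dirac, smul_eq_mul, smul_eq_mul]

section general

variable {ν : Measure ℕ} [IsProbabilityMeasure ν] (a : ℕ → ℕ → ℝ)

lemma measurable_branch (i : ℕ) : Measurable fun ω : Aug => branch a ω i := by
  unfold branch
  have h1 : Measurable fun ω : Aug => (ω.1, ω.2 i []) :=
    measurable_fst.prodMk ((measurable_pi_apply ([] : List ℕ)).comp
      ((measurable_pi_apply i).comp measurable_snd))
  have h2 : Measurable fun ω : Aug => (ENNReal.ofReal (a ω.1 (ω.2 i [])))⁻¹ :=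
    (measurable_of_countable fun q : ℕ × ℕ => (ENNReal.ofReal (a q.1 q.2))⁻¹).comp h1
  have h3 : Measurable fun ω : Aug => (cond a (ω.2 i))⁻¹ :=
    ((measurable_cond a).comp ((measurable_pi_apply i).comp measurable_snd)).inv
  exact (h2.add h3).inv

lemma measurable_total : Measurable (total a) := by
  have h : ∀ k : ℕ, Measurable fun t : ℕ → Tree => total a (k, t) := by
    intro k
    change Measurable fun t : ℕ → Tree => ∑ i ∈ range (k + 1), branch a ((k, t) : Aug) i
    refine Finset.measurable_fun_sum _ fun i _ => ?_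
    exact (measurable_branch a i).comp (measurable_const.prodMk measurable_id)
  exact measurable_from_prod_countable_right h

/-- permuting the neighbours of the root -/
lemma swap_mp (i : ℕ) : MeasurePreserving (fun t : ℕ → Tree => fun j => t (Equiv.swap 0 i j))
    (Measure.infinitePi fun _ : ℕ => GW ν) (Measure.infinitePi fun _ : ℕ => GW ν) := by
  have hm : Measurable (fun t : ℕ → Tree => fun j => t (Equiv.swap 0 i j)) := by
    apply measurable_pi_lambda
    intro j
    exact measurable_pi_apply _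
  refine ⟨hm, ?_⟩
  apply Measure.eq_infinitePi
  intro s t ht
  rw [Measure.map_apply hm (MeasurableSet.pi s.countable_toSet fun i _ => ht i)]
  have hset : (fun t : ℕ → Tree => fun j => t (Equiv.swap 0 i j)) ⁻¹' (Set.pi s t)
      = Set.pi (s.map (Equiv.swap 0 i).toEmbedding) (fun j => t (Equiv.swap 0 i j)) := by
    ext x
    simp only [Set.mem_preimage, Set.mem_pi, Finset.mem_coe, Finset.mem_map, Equiv.coe_toEmbedding]
    constructor
    · rintro h j ⟨l, hl, rfl⟩
      have := h l hl
      rwa [Equiv.swap_apply_self]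
    · intro h j hj
      have := h (Equiv.swap 0 i j) ⟨j, hj, rfl⟩
      rwa [Equiv.swap_apply_self] at this
  rw [hset, Measure.infinitePi_pi _ fun j _ => ht _, Finset.prod_map]
  apply Finset.prod_congr rfl
  intro j _
  rw [Equiv.coe_toEmbedding, Equiv.swap_apply_self]

lemma total_swap (k i : ℕ) (hi : i ≤ k) (t : ℕ → Tree) :
    total a (k, fun j => t (Equiv.swap 0 i j)) = total a (k, t) := by
  unfold total
  apply Finset.sum_equiv (Equiv.swap 0 i)
  · intro j
    simp only [Finset.mem_range]
    by_cases h0 : j = 0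
    · subst h0; rw [Equiv.swap_apply_left]; omega
    · by_cases h1 : j = i
      · subst h1; rw [Equiv.swap_apply_right]; omega
      · rw [Equiv.swap_apply_of_ne_of_ne h0 h1]
  · intro j _
    rfl

lemma branch_ne {a : ℕ → ℕ → ℝ} (ha : ∀ k m, 0 < a k m) (ω : Aug) (i : ℕ)
    (h : cond a (ω.2 i) ≠ 0) : branch a ω i ≠ 0 := by
  unfold branch
  rw [ENNReal.inv_ne_zero, ENNReal.add_ne_top]
  exact ⟨ENNReal.inv_ne_top.2 (ENNReal.ofReal_pos.2 (ha _ _)).ne', ENNReal.inv_ne_top.2 h⟩

lemma branch_ne_top (ω : Aug) (i : ℕ) : branch a ω i ≠ ⊤ := by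
  unfold branch
  rw [ENNReal.inv_ne_top]
  intro h
  rw [add_eq_zero] at h
  exact ENNReal.inv_ne_zero.2 ENNReal.ofReal_ne_top h.1

lemma total_ne_top (ω : Aug) : total a ω ≠ ⊤ := by
  unfold total
  rw [Ne, ENNReal.sum_eq_top]
  push Not
  intro i _
  exact branch_ne_top a ω i

/-- exchangeability -/
lemma lintegral_ratio {a : ℕ → ℕ → ℝ} (ha : ∀ k m, 0 < a k m)
    (hpos : ∀ᵐ t ∂(GW ν), cond a t ≠ 0) (k : ℕ) :
    ∫⁻ t, branch a (k, t) 0 / total a (k, t) ∂(Measure.infinitePi fun _ : ℕ => GW ν)
      = ((k : ℝ≥0∞) + 1)⁻¹ := by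
  set Q := Measure.infinitePi fun _ : ℕ => GW ν with hQ
  have hmeas : ∀ i, Measurable fun t : ℕ → Tree => branch a (k, t) i / total a (k, t) := by
    intro i
    have h1 : Measurable fun t : ℕ → Tree => ((k, t) : Aug) := measurable_const.prodMk measurable_id
    exact ((measurable_branch a i).comp h1).div ((measurable_total a).comp h1)
  have hsym : ∀ i ∈ range (k + 1), ∫⁻ t, branch a (k, t) i / total a (k, t) ∂Q
      = ∫⁻ t, branch a (k, t) 0 / total a (k, t) ∂Q := by
    intro i hi
    have hi' : i ≤ k := by rw [Finset.mem_range] at hi; omega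
    have h1 := (swap_mp (ν := ν) i).lintegral_comp (hmeas 0)
    rw [← h1]
    apply lintegral_congr
    intro t
    rw [total_swap a k i hi' t]
    unfold branch
    simp only [Equiv.swap_apply_left]
  have hall : ∀ᵐ t ∂Q, ∀ i, cond a (t i) ≠ 0 := by
    rw [ae_all_iff]
    intro i
    have h2 := (measurePreserving_eval_infinitePi (fun _ : ℕ => GW ν) i)
    exact h2.quasiMeasurePreserving.ae hpos
  have hone : ∑ i ∈ range (k + 1), ∫⁻ t, branch a (k, t) i / total a (k, t) ∂Q = 1 := by
    rw [← lintegral_finsetSum _ fun i _ => hmeas i]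
    have h3 : ∫⁻ t, ∑ i ∈ range (k + 1), branch a (k, t) i / total a (k, t) ∂Q = ∫⁻ _, 1 ∂Q := by
      apply lintegral_congr_ae
      filter_upwards [hall] with t ht
      have h4 : total a (k, t) ≠ 0 := by
        intro h5
        unfold total at h5
        rw [Finset.sum_eq_zero_iff] at h5
        exact branch_ne ha (k, t) 0 (ht 0) (h5 0 (by simp))
      simp_rw [div_eq_mul_inv]
      rw [← Finset.sum_mul]
      exact ENNReal.mul_inv_cancel h4 (total_ne_top a (k, t))
    rw [h3]
    simp
  rw [Finset.sum_congr rfl hsym, Finset.sum_const, card_range, nsmul_eq_mul] at hone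
  have hk0 : ((k : ℝ≥0∞) + 1) ≠ 0 := by simp
  have hkt : ((k : ℝ≥0∞) + 1) ≠ ⊤ := by finiteness
  push_cast at hone
  calc ∫⁻ t, branch a (k, t) 0 / total a (k, t) ∂Q
      = ((k : ℝ≥0∞) + 1)⁻¹ * (((k : ℝ≥0∞) + 1) * ∫⁻ t, branch a (k, t) 0 / total a (k, t) ∂Q) := by
        rw [← mul_assoc, ENNReal.inv_mul_cancel hk0 hkt, one_mul]
    _ = ((k : ℝ≥0∞) + 1)⁻¹ := by rw [hone, mul_one]

lemma ratio_le_one (ω : Aug) : branch a ω 0 / total a ω ≤ 1 := by
  apply ENNReal.div_le_of_le_mul
  rw [one_mul]
  unfold total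
  exact Finset.single_le_sum (f := fun i => branch a ω i) (fun _ _ => zero_le) (by simp)

lemma measurable_ratio : Measurable (ratio a) :=
  ((measurable_branch a 0).div (measurable_total a)).ennreal_toReal

lemma ratio_nonneg (ω : Aug) : 0 ≤ ratio a ω := ENNReal.toReal_nonneg

lemma ratio_le (ω : Aug) : ratio a ω ≤ 1 := by
  unfold ratio
  have := ENNReal.toReal_mono ENNReal.one_ne_top (ratio_le_one a ω)
  simpa using this

lemma measurable_xi0 : Measurable (xi0 a) := by
  have h1 : Measurable fun ω : Aug => (ω.1, ω.2 0 []) :=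
    measurable_fst.prodMk ((measurable_pi_apply ([] : List ℕ)).comp
      ((measurable_pi_apply 0).comp measurable_snd))
  exact (measurable_of_countable fun q : ℕ × ℕ => a q.1 q.2).comp h1

end general

section example_

variable (K : ℕ) (p M : ℝ)

lemma cnd_symm (k m : ℕ) : cnd K M k m = cnd K M m k := by
  unfold cnd
  simp only [and_comm]

lemma one_le_cnd {M : ℝ} (hM : 1 < M) (k m : ℕ) : 1 ≤ cnd K M k m := by
  unfold cnd; split_ifs <;> linarith

/-- the event that the root and `w_0` both have index `K` -/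
def KK : Set Aug := {ω | ω.1 = K ∧ ω.2 0 [] = K}

lemma measurable_KK : MeasurableSet (KK K) := by
  have h1 : Measurable fun ω : Aug => (ω.1, ω.2 0 []) :=
    measurable_fst.prodMk ((measurable_pi_apply ([] : List ℕ)).comp
      ((measurable_pi_apply 0).comp measurable_snd))
  have h2 : KK K = (fun ω : Aug => (ω.1, ω.2 0 [])) ⁻¹' {((K, K) : ℕ × ℕ)} := by
    ext ω
    simp [KK, Prod.ext_iff]
  rw [h2]
  exact h1 (measurableSet_singleton _)

lemma xi0_eq (ω : Aug) : xi0 (cnd K M) ω = 1 + (M - 1) * (KK K).indicator (fun _ => (1 : ℝ)) ω := by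
  unfold xi0 cnd
  by_cases h : ω.1 = K ∧ ω.2 0 [] = K
  · rw [if_pos h, Set.indicator_of_mem (show ω ∈ KK K from h)]; ring
  · rw [if_neg h, Set.indicator_of_notMem (show ω ∉ KK K from h)]; ring

/-- **MP_8be476_pr, Q1 (the covariance inequality is disproved).** -/
theorem result (K : ℕ) (p M : ℝ) (hp0 : 0 < p) (hp1 : p < 1) (hK : 2 < p * (K - 1)) (hM : 1 < M) :
    IsProbabilityMeasure (AGW (law K p)) ∧
    (∀ᵐ ω ∂(AGW (law K p)), total (cnd K M) ω ≠ 0 ∧ total (cnd K M) ω ≠ ⊤) ∧
    ∫ ω, xi0 (cnd K M) ω ∂(AGW (law K p)) = 1 + (M - 1) * p ^ 2 ∧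
    0 < Var[xi0 (cnd K M); AGW (law K p)] ∧
    cov[xi0 (cnd K M), ratio (cnd K M); AGW (law K p)] < 0 ∧
    (1 - p) * ((1 - 1) / (1 + 1)) + p * ((K - 1) / (K + 1))
      < 1 - 2 / (1 + (M - 1) * p ^ 2)
        * ∫ ω, xi0 (cnd K M) ω * ratio (cnd K M) ω ∂(AGW (law K p)) := by
  have hprob : IsProbabilityMeasure (law K p) := law_prob K hp0.le hp1.le
  have hK3 : (3 : ℝ) < K := by nlinarith
  have hK3' : 3 < K := by exact_mod_cast hK3
  set a := cnd K M with ha
  set P := AGW (law K p) with hP
  have ha1 : ∀ k m, 1 ≤ a k m := one_le_cnd K hM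
  have ha0 : ∀ k m, 0 < a k m := fun k m => lt_of_lt_of_le one_pos (ha1 k m)
  -- transience
  have hzero : law K p {0} = 0 := by
    have h1 : law K p {0} = ∫⁻ k, ({0} : Set ℕ).indicator 1 k ∂(law K p) := by
      rw [lintegral_indicator_one (measurableSet_singleton _)]
    rw [h1, lintegral_law]
    have : K ≠ 0 := by omega
    simp [this]
  set ρ : ℝ := 1 - p + p / K with hρ
  have hρ0 : 0 < ρ := by
    have : 0 < p / K := by positivity
    linarith
  have hρ1 : ρ < 1 := by
    have : p / K < p := by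
      rw [div_lt_iff₀ (by linarith)]; nlinarith
    linarith
  have hlint : ∫⁻ k, (k : ℝ≥0∞)⁻¹ ∂(law K p) = ENNReal.ofReal ρ := by
    rw [lintegral_law, hρ, ENNReal.ofReal_add (by linarith) (by positivity)]
    congr 1
    · simp
    · rw [ENNReal.ofReal_div_of_pos (by linarith), ENNReal.ofReal_natCast, div_eq_mul_inv]
  have hB : (∫⁻ k, (k : ℝ≥0∞)⁻¹ ∂(law K p)) * (1 + ENNReal.ofReal (ρ / (1 - ρ)))
      ≤ ENNReal.ofReal (ρ / (1 - ρ)) := by
    rw [hlint, ← ENNReal.ofReal_one, ← ENNReal.ofReal_add (by norm_num)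
      (div_nonneg hρ0.le (by linarith)), ← ENNReal.ofReal_mul hρ0.le]
    apply ENNReal.ofReal_le_ofReal
    have : (1 - ρ) ≠ 0 := by linarith
    apply le_of_eq
    field_simp
    ring
  have hpos : ∀ᵐ t ∂(GW (law K p)), cond a t ≠ 0 :=
    cond_pos a ha1 hzero _ ENNReal.ofReal_ne_top hB
  -- the law of the ratio
  have hmr : Measurable fun ω : Aug => branch a ω 0 / total a ω :=
    (measurable_branch a 0).div (measurable_total a)
  have hER : ∫⁻ ω, branch a ω 0 / total a ω ∂P = ENNReal.ofReal ((1 - p) / 2 + p / (K + 1)) := by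
    rw [hP]
    unfold AGW
    rw [lintegral_prod _ hmr.aemeasurable]
    simp_rw [lintegral_ratio ha0 hpos]
    rw [lintegral_law, ENNReal.ofReal_add (by apply div_nonneg <;> linarith) (by positivity)]
    congr 1
    · rw [ENNReal.ofReal_div_of_pos (by norm_num), div_eq_mul_inv]
      norm_num
    · rw [ENNReal.ofReal_div_of_pos (by positivity), div_eq_mul_inv,
        ENNReal.ofReal_add (by positivity) (by norm_num)]
      simp
  have hratio_meas := measurable_ratio a
  have hxi_meas := measurable_xi0 a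
  have hER' : ∫ ω, ratio a ω ∂P = (1 - p) / 2 + p / (K + 1) := by
    unfold ratio
    rw [integral_toReal hmr.aemeasurable
      (Filter.Eventually.of_forall fun ω => (ratio_le_one a ω).trans_lt ENNReal.one_lt_top), hER,
      ENNReal.toReal_ofReal (add_nonneg (by apply div_nonneg <;> linarith) (by positivity))]
  have hm2 : Measurable fun ω : Aug =>
      ({K} : Set ℕ).indicator (1 : ℕ → ℝ≥0∞) ω.1 * (branch a ω 0 / total a ω) := by
    have h1 : Measurable fun ω : Aug => ({K} : Set ℕ).indicator (1 : ℕ → ℝ≥0∞) ω.1 :=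
      (measurable_of_countable fun k : ℕ => ({K} : Set ℕ).indicator (1 : ℕ → ℝ≥0∞) k).comp
        measurable_fst
    exact h1.mul hmr
  -- the mass of the event KK
  have hroot : ∫⁻ ω, ({K} : Set ℕ).indicator 1 ω.1 * (branch a ω 0 / total a ω) ∂P
      = ENNReal.ofReal (p / (K + 1)) := by
    rw [hP]
    unfold AGW
    rw [lintegral_prod _ hm2.aemeasurable]
    have h1 : ∀ k : ℕ, ∫⁻ t, ({K} : Set ℕ).indicator (1 : ℕ → ℝ≥0∞) k * (branch a (k, t) 0 / total a (k, t))
        ∂(Measure.infinitePi fun _ : ℕ => GW (law K p))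
        = ({K} : Set ℕ).indicator (1 : ℕ → ℝ≥0∞) k * ((k : ℝ≥0∞) + 1)⁻¹ := by
      intro k
      rw [lintegral_const_mul, lintegral_ratio ha0 hpos]
      have h1 : Measurable fun t : ℕ → Tree => ((k, t) : Aug) := measurable_const.prodMk measurable_id
      exact hmr.comp h1
    simp_rw [h1]
    rw [lintegral_law]
    have h2 : (1 : ℕ) ∉ ({K} : Set ℕ) := by simp; omega
    rw [Set.indicator_of_notMem h2, Set.indicator_of_mem (Set.mem_singleton K),
      ENNReal.ofReal_div_of_pos (by positivity), div_eq_mul_inv,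
      ENNReal.ofReal_add (by positivity) (by norm_num)]
    simp
  have hKKle : ∫ ω, (KK K).indicator (fun _ => (1 : ℝ)) ω * ratio a ω ∂P ≤ p / (K + 1) := by
    have h1 : ∫ ω, (KK K).indicator (fun _ => (1 : ℝ)) ω * ratio a ω ∂P
        ≤ ∫ ω, (({K} : Set ℕ).indicator (1 : ℕ → ℝ≥0∞) ω.1 * (branch a ω 0 / total a ω)).toReal ∂P := by
      apply integral_mono
      · apply Integrable.of_bound (C := 1)
        · exact ((measurable_const.indicator (measurable_KK K)).mul hratio_meas).aestronglyMeasurable
        · apply Filter.Eventually.of_forall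
          intro ω
          rw [Real.norm_eq_abs, abs_mul, abs_of_nonneg (ratio_nonneg a ω)]
          have h2 := ratio_le a ω
          have h3 := ratio_nonneg a ω
          by_cases h : ω ∈ KK K
          · rw [Set.indicator_of_mem h]; simpa using h2
          · rw [Set.indicator_of_notMem h]; simp
      · apply Integrable.of_bound (C := 1)
        · exact hm2.ennreal_toReal.aestronglyMeasurable
        · apply Filter.Eventually.of_forall
          intro ω
          rw [Real.norm_eq_abs, abs_of_nonneg ENNReal.toReal_nonneg, ENNReal.toReal_mul]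
          have h2 := ratio_le a ω
          have h3 := ratio_nonneg a ω
          unfold ratio at h2 h3
          by_cases h : ω.1 ∈ ({K} : Set ℕ)
          · rw [Set.indicator_of_mem h]; simpa using h2
          · rw [Set.indicator_of_notMem h]; simp
      · intro ω
        simp only
        rw [ENNReal.toReal_mul]
        have h3 := ratio_nonneg a ω
        unfold ratio at h3 ⊢
        by_cases h : ω ∈ KK K
        · have h4 : ω.1 ∈ ({K} : Set ℕ) := h.1
          rw [Set.indicator_of_mem h, Set.indicator_of_mem h4]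
          simp
        · rw [Set.indicator_of_notMem h, zero_mul]
          exact mul_nonneg ENNReal.toReal_nonneg h3
    refine h1.trans ?_
    rw [integral_toReal, hroot, ENNReal.toReal_ofReal (by positivity)]
    · exact hm2.aemeasurable
    · apply Filter.Eventually.of_forall
      intro ω
      apply ENNReal.mul_lt_top
      · by_cases h : ω.1 ∈ ({K} : Set ℕ)
        · rw [Set.indicator_of_mem h]; simp
        · rw [Set.indicator_of_notMem h]; simp
      · exact (ratio_le_one a ω).trans_lt ENNReal.one_lt_top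
  have hPKK : P.real (KK K) = p ^ 2 := by
    have hsingle : law K p {K} = ENNReal.ofReal p := by
      have h1 : law K p {K} = ∫⁻ k, ({K} : Set ℕ).indicator 1 k ∂(law K p) := by
        rw [lintegral_indicator_one (measurableSet_singleton _)]
      rw [h1, lintegral_law]
      have h2 : (1 : ℕ) ∉ ({K} : Set ℕ) := by simp; omega
      rw [Set.indicator_of_notMem h2, Set.indicator_of_mem (Set.mem_singleton K)]
      simp
    have hset : KK K = ({K} : Set ℕ) ×ˢ ((fun t : ℕ → Tree => t 0 []) ⁻¹' {K}) := by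
      ext ω
      simp [KK]
    have h3 : (Measure.infinitePi fun _ : ℕ => GW (law K p)) ((fun t : ℕ → Tree => t 0 []) ⁻¹' {K})
        = law K p {K} := by
      have h4 := (measurePreserving_eval_infinitePi (fun _ : List ℕ => law K p) ([] : List ℕ))
      have h5 := (measurePreserving_eval_infinitePi (fun _ : ℕ => GW (law K p)) 0)
      have h6 := h4.comp h5
      exact h6.measure_preimage (measurableSet_singleton K).nullMeasurableSet
    rw [Measure.real, hP]
    unfold AGW
    rw [hset, Measure.prod_prod, h3, hsingle, ← ENNReal.ofReal_mul hp0.le,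
      ENNReal.toReal_ofReal (by positivity), sq]
  have hind_int : ∫ ω, (KK K).indicator (fun _ => (1 : ℝ)) ω ∂P = p ^ 2 := by
    rw [integral_indicator (measurable_KK K)]
    simp [hPKK]
  have hind_integrable : Integrable ((KK K).indicator (fun _ => (1 : ℝ))) P :=
    (integrable_const 1).indicator (measurable_KK K)
  have hExi : ∫ ω, xi0 a ω ∂P = 1 + (M - 1) * p ^ 2 := by
    simp_rw [ha, xi0_eq]
    rw [integral_add (integrable_const _) (hind_integrable.const_mul _), integral_const_mul,
      hind_int]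
    simp
  have hratio_int : Integrable (ratio a) P := by
    apply Integrable.of_bound (C := 1) hratio_meas.aestronglyMeasurable
    apply Filter.Eventually.of_forall
    intro ω
    rw [Real.norm_eq_abs, abs_of_nonneg (ratio_nonneg a ω)]
    exact ratio_le a ω
  have hindr_int : Integrable (fun ω => (KK K).indicator (fun _ => (1 : ℝ)) ω * ratio a ω) P := by
    apply Integrable.of_bound (C := 1)
    · exact ((measurable_const.indicator (measurable_KK K)).mul hratio_meas).aestronglyMeasurable
    · apply Filter.Eventually.of_forall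
      intro ω
      rw [Real.norm_eq_abs, abs_mul, abs_of_nonneg (ratio_nonneg a ω)]
      have h2 := ratio_le a ω
      by_cases h : ω ∈ KK K
      · rw [Set.indicator_of_mem h]; simpa using h2
      · rw [Set.indicator_of_notMem h]; simp
  have hExiR : ∫ ω, xi0 a ω * ratio a ω ∂P
      ≤ ((1 - p) / 2 + p / (K + 1)) + (M - 1) * (p / (K + 1)) := by
    have h1 : ∀ ω, xi0 a ω * ratio a ω
        = ratio a ω + (M - 1) * ((KK K).indicator (fun _ => (1 : ℝ)) ω * ratio a ω) := by
      intro ω
      rw [ha, xi0_eq]; ring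
    simp_rw [h1]
    rw [integral_add hratio_int (hindr_int.const_mul _), integral_const_mul, hER']
    have h2 : 0 < M - 1 := by linarith
    have h3 := mul_le_mul_of_nonneg_left hKKle h2.le
    linarith
  have hxi_bdd : ∀ᵐ ω ∂P, ‖xi0 a ω‖ ≤ M := by
    apply Filter.Eventually.of_forall
    intro ω
    unfold xi0
    rw [Real.norm_eq_abs, abs_of_pos (ha0 _ _), ha]
    unfold cnd
    split_ifs <;> linarith
  have hxiL2 : MemLp (xi0 a) 2 P := MemLp.of_bound hxi_meas.aestronglyMeasurable M hxi_bdd
  have hratioL2 : MemLp (ratio a) 2 P := by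
    apply MemLp.of_bound hratio_meas.aestronglyMeasurable 1
    apply Filter.Eventually.of_forall
    intro ω
    rw [Real.norm_eq_abs, abs_of_nonneg (ratio_nonneg a ω)]
    exact ratio_le a ω
  -- key numerical inequality
  have hkey : p / (K + 1) < p ^ 2 * ((1 - p) / 2 + p / (K + 1)) := by
    have hK1 : (0 : ℝ) < K + 1 := by linarith
    have h1 : p ^ 2 * ((1 - p) / 2 + p / (K + 1)) - p / (K + 1)
        = p * (1 - p) * (p * (K - 1) - 2) / (2 * (K + 1)) := by
      field_simp
      ring
    have h2 : 0 < p * (1 - p) * (p * (K - 1) - 2) / (2 * (K + 1)) := by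
      apply div_pos _ (by linarith)
      exact _root_.mul_pos (_root_.mul_pos hp0 (by linarith)) (by linarith)
    linarith
  have hcov : cov[xi0 a, ratio a; P] < 0 := by
    rw [covariance_eq_sub hxiL2 hratioL2, hExi, hER']
    have h1 : ∫ ω, (xi0 a * ratio a) ω ∂P = ∫ ω, xi0 a ω * ratio a ω ∂P := rfl
    rw [h1]
    have h2 : 0 < M - 1 := by linarith
    have h3 := mul_lt_mul_of_pos_left hkey h2
    nlinarith
  refine ⟨inferInstance, ?_, hExi, ?_, hcov, ?_⟩
  · -- almost sure positivity
    have hbr : ∀ᵐ ω ∂P, cond a (ω.2 0) ≠ 0 := by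
      have h5 := (measurePreserving_eval_infinitePi (fun _ : ℕ => GW (law K p)) 0)
      have h6 : MeasurePreserving (Prod.snd : Aug → (ℕ → Tree)) P
          (Measure.infinitePi fun _ : ℕ => GW (law K p)) := by
        rw [hP]; unfold AGW; exact measurePreserving_snd
      exact (h5.comp h6).quasiMeasurePreserving.ae hpos
    filter_upwards [hbr] with ω hω
    refine ⟨?_, total_ne_top a ω⟩
    intro h5
    unfold total at h5
    rw [Finset.sum_eq_zero_iff] at h5
    exact branch_ne ha0 ω 0 hω (h5 0 (by simp))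
  · -- non-degeneracy
    rw [variance_eq_sub hxiL2, hExi]
    have h1 : ∀ ω, (xi0 a ^ 2) ω = 1 + (M ^ 2 - 1) * (KK K).indicator (fun _ => (1 : ℝ)) ω := by
      intro ω
      rw [Pi.pow_apply, ha, xi0_eq]
      by_cases h : ω ∈ KK K
      · rw [Set.indicator_of_mem h]; ring
      · rw [Set.indicator_of_notMem h]; ring
    simp_rw [h1]
    rw [integral_add (integrable_const _) (hind_integrable.const_mul _), integral_const_mul,
      hind_int]
    simp only [integral_const, probReal_univ, smul_eq_mul, one_mul]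
    have h2 : 1 + (M ^ 2 - 1) * p ^ 2 - (1 + (M - 1) * p ^ 2) ^ 2
        = (M - 1) ^ 2 * p ^ 2 * (1 - p ^ 2) := by ring
    rw [h2]
    have h3 : 0 < 1 - p ^ 2 := by nlinarith
    have h4 : 0 < M - 1 := by linarith
    positivity
  · -- the speed formula
    have hγ : 0 < 1 + (M - 1) * p ^ 2 := by
      have : 0 < (M - 1) * p ^ 2 := _root_.mul_pos (by linarith) (by positivity)
      linarith
    have hcov2 : ∫ ω, xi0 a ω * ratio a ω ∂P
        < (1 + (M - 1) * p ^ 2) * ((1 - p) / 2 + p / (K + 1)) := by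
      rw [covariance_eq_sub hxiL2 hratioL2, hExi, hER'] at hcov
      have h1 : ∫ ω, (xi0 a * ratio a) ω ∂P = ∫ ω, xi0 a ω * ratio a ω ∂P := rfl
      rw [h1] at hcov
      linarith
    have h1 : 2 / (1 + (M - 1) * p ^ 2) * ∫ ω, xi0 a ω * ratio a ω ∂P
        < 2 / (1 + (M - 1) * p ^ 2) * ((1 + (M - 1) * p ^ 2) * ((1 - p) / 2 + p / (K + 1))) :=
      mul_lt_mul_of_pos_left hcov2 (by positivity)
    have h2 : 2 / (1 + (M - 1) * p ^ 2) * ((1 + (M - 1) * p ^ 2) * ((1 - p) / 2 + p / (K + 1)))
        = (1 - p) + 2 * p / (K + 1) := by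
      field_simp
    have hK1 : (0 : ℝ) < K + 1 := by linarith
    have h3 : (1 - p) * ((1 - 1) / (1 + 1)) + p * (((K : ℝ) - 1) / (K + 1))
        = 1 - ((1 - p) + 2 * p / (K + 1)) := by
      field_simp
      ring
    linarith

end example_

end Pool.Agent.Results.MP_8be476_pr.NegativeCovariance
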